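import Pool.Agent.NH73.CS.Main

/-!
Maximum number of distinct intersections of a cross-Sperner pair of families on an odd ground
set of size `2d+1`: the answer is `2^(2d+1) - 2^(d+1) - 2^d + 1`.
-/

namespace Pool.Agent.Results.MP_841146_co.OddExact

open Finset

/-- Two families of subsets of an `n`-element set are cross-Sperner if no member of the one is
contained in a member of the other. -/
def CrossSperner {n : ℕ} (𝒜 ℬ : Finset (Finset (Fin n))) : Prop :=
  ∀ A ∈ 𝒜, ∀ B ∈ ℬ, ¬ A ⊆ B ∧ ¬ B ⊆ A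

/-- The family of all intersections of a member of the first family with a member of the
second one. -/
def intersections {n : ℕ} (𝒜 ℬ : Finset (Finset (Fin n))) : Finset (Finset (Fin n)) :=
  (𝒜 ×ˢ ℬ).image (fun p => p.1 ∩ p.2)

lemma upper {d : ℕ} (𝒜 ℬ : Finset (Finset (Fin (2 * d + 1)))) (h : CrossSperner 𝒜 ℬ) :
    (intersections 𝒜 ℬ).card + 3 * 2 ^ d ≤ 2 * (2 ^ d) ^ 2 + 1 := by
  classical
  set A : Finset (Finset (Fin (2 * d + 1))) := univ.filter (fun S => ∃ X ∈ 𝒜, S ⊆ Xᶜ) with hA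
  set B : Finset (Finset (Fin (2 * d + 1))) := univ.filter (fun S => ∃ X ∈ ℬ, S ⊆ Xᶜ) with hB
  have hLA : NH73.CS.Low A := by
    intro S hS S' hS'
    rw [hA, mem_filter] at hS ⊢
    obtain ⟨_, X, hX, hSX⟩ := hS
    exact ⟨mem_univ _, X, hX, hS'.trans hSX⟩
  have hLB : NH73.CS.Low B := by
    intro S hS S' hS'
    rw [hB, mem_filter] at hS ⊢
    obtain ⟨_, X, hX, hSX⟩ := hS
    exact ⟨mem_univ _, X, hX, hS'.trans hSX⟩
  have hmain := NH73.CS.main_low hLA hLB (d := d) (by simp)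
  have hle : (intersections 𝒜 ℬ).card ≤ (NH73.CS.UU (A \ B) (B \ A)).card := by
    apply card_le_card_of_injOn (fun S => Sᶜ)
    · intro W hW
      rw [mem_coe, intersections, mem_image] at hW
      obtain ⟨⟨X, Y⟩, hXY, rfl⟩ := hW
      rw [mem_product] at hXY
      rw [mem_coe, NH73.CS.mem_UU]
      refine ⟨Xᶜ, ?_, Yᶜ, ?_, ?_⟩
      · rw [mem_sdiff, hA, hB, mem_filter, mem_filter]
        refine ⟨⟨mem_univ _, X, hXY.1, subset_rfl⟩, ?_⟩
        rintro ⟨_, Z, hZ, hXZ⟩
        rw [compl_subset_compl] at hXZ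
        exact (h X hXY.1 Z hZ).2 hXZ
      · rw [mem_sdiff, hA, hB, mem_filter, mem_filter]
        refine ⟨⟨mem_univ _, Y, hXY.2, subset_rfl⟩, ?_⟩
        rintro ⟨_, Z, hZ, hXZ⟩
        rw [compl_subset_compl] at hXZ
        exact (h Z hZ Y hXY.2).1 hXZ
      · exact (compl_inter X Y).symm
    · intro S _ T _ hST
      exact compl_injective hST
  omega

lemma lower (d : ℕ) : ∃ 𝒜 ℬ : Finset (Finset (Fin (2 * d + 1))), CrossSperner 𝒜 ℬ ∧
    (intersections 𝒜 ℬ).card = (2 ^ d - 1) * (2 ^ (d + 1) - 1) := by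
  classical
  obtain ⟨X, _, hX⟩ := Finset.exists_subset_card_eq
    (show d ≤ (univ : Finset (Fin (2 * d + 1))).card by simp; omega)
  have hXc : Xᶜ.card = d + 1 := by
    rw [card_compl, hX]; simp; omega
  refine ⟨(X.powerset.erase X).image (fun A => A ∪ Xᶜ),
    (Xᶜ.powerset.erase Xᶜ).image (fun B => X ∪ B), ?_, ?_⟩
  · intro S hS T hT
    rw [mem_image] at hS hT
    obtain ⟨A, hA, rfl⟩ := hS
    obtain ⟨B, hB, rfl⟩ := hT
    rw [mem_erase, mem_powerset] at hA hB
    constructor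
    · intro h
      apply hB.1
      apply subset_antisymm hB.2
      intro j hj
      have := h (mem_union_right _ hj)
      rw [mem_union] at this
      rw [mem_compl] at hj
      tauto
    · intro h
      apply hA.1
      apply subset_antisymm hA.2
      intro j hj
      have := h (mem_union_left _ hj)
      rw [mem_union, mem_compl] at this
      tauto
  · have e : intersections ((X.powerset.erase X).image (fun A => A ∪ Xᶜ))
        ((Xᶜ.powerset.erase Xᶜ).image (fun B => X ∪ B)) =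
        ((X.powerset.erase X) ×ˢ (Xᶜ.powerset.erase Xᶜ)).image (fun p => p.1 ∪ p.2) := by
      have key : ∀ A B : Finset (Fin (2 * d + 1)), A ⊆ X → B ⊆ Xᶜ →
          (A ∪ Xᶜ) ∩ (X ∪ B) = A ∪ B := by
        intro A B hA hB
        ext j
        have h1 := @hA j
        have h2 := @hB j
        simp only [mem_inter, mem_union, mem_compl] at h1 h2 ⊢
        tauto
      ext W
      simp only [intersections, mem_image, mem_product, Prod.exists, mem_erase, mem_powerset]
      constructor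
      · rintro ⟨S, T, ⟨⟨A, hA, rfl⟩, ⟨B, hB, rfl⟩⟩, rfl⟩
        exact ⟨A, B, ⟨hA, hB⟩, (key A B hA.2 hB.2).symm⟩
      · rintro ⟨A, B, ⟨hA, hB⟩, rfl⟩
        exact ⟨A ∪ Xᶜ, X ∪ B, ⟨⟨A, hA, rfl⟩, ⟨B, hB, rfl⟩⟩, key A B hA.2 hB.2⟩
    rw [e, card_image_of_injOn, card_product, card_erase_of_mem (mem_powerset_self _),
      card_erase_of_mem (mem_powerset_self _), card_powerset, card_powerset, hX, hXc]
    intro p hp p' hp' h
    simp only [coe_product, Set.mem_prod, mem_coe, mem_erase, mem_powerset] at hp hp'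
    simp only at h
    apply Prod.ext
    · ext j
      have h0 := Finset.ext_iff.1 h j
      have h1 := @hp.1.2 j
      have h2 := @hp.2.2 j
      have h3 := @hp'.1.2 j
      have h4 := @hp'.2.2 j
      simp only [mem_union, mem_compl] at h0 h1 h2 h3 h4
      tauto
    · ext j
      have h0 := Finset.ext_iff.1 h j
      have h1 := @hp.1.2 j
      have h2 := @hp.2.2 j
      have h3 := @hp'.1.2 j
      have h4 := @hp'.2.2 j
      simp only [mem_union, mem_compl] at h0 h1 h2 h3 h4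
      tauto

/-- **Main result.** For every `d`, the largest number of distinct intersections of a
cross-Sperner pair of families of subsets of a set with `2d+1` elements is exactly
`2^(2d+1) - 2^(d+1) - 2^d + 1`. -/
theorem result (d : ℕ) :
    IsGreatest {k : ℤ | ∃ 𝒜 ℬ : Finset (Finset (Fin (2 * d + 1))),
        CrossSperner 𝒜 ℬ ∧ k = ((intersections 𝒜 ℬ).card : ℤ)}
      (2 ^ (2 * d + 1) - 2 ^ (d + 1) - 2 ^ d + 1) := by
  have hpow : (2 : ℤ) ^ (2 * d + 1) = 2 * (2 ^ d) ^ 2 := by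
    rw [pow_succ, mul_comm 2 d, pow_mul]; ring
  have hpow1 : (2 : ℤ) ^ (d + 1) = 2 * 2 ^ d := by rw [pow_succ]; ring
  constructor
  · obtain ⟨𝒜, ℬ, h, hc⟩ := lower d
    refine ⟨𝒜, ℬ, h, ?_⟩
    rw [hc]
    have h1 : 1 ≤ 2 ^ d := Nat.one_le_two_pow
    have h2 : 1 ≤ 2 ^ (d + 1) := Nat.one_le_two_pow
    push_cast [Nat.cast_sub h1, Nat.cast_sub h2]
    rw [hpow, hpow1]
    ring
  · rintro k ⟨𝒜, ℬ, h, rfl⟩
    have hu := upper 𝒜 ℬ h
    have hu' := (Nat.cast_le (α := ℤ)).2 hu
    push_cast at hu'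
    rw [hpow, hpow1]
    linarith

end Pool.Agent.Results.MP_841146_co.OddExact
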